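import Mathlib
import Pool.Agent.MP_c8dfda_nt.kj.All3

open Filter Topology

namespace Pool.Agent.Results.MP_c8dfda_nt.PolynomialPlane

/-- The Kawaguchi-Silverman conjecture for polynomial maps `F` of the affine plane over number
fields. `P` has a Zariski dense orbit and `q` is the topological degree of `F`. The dynamical
degree `δ` exists and, if `δ > 1`, it equals the arithmetic degree of `P`, outside one exceptional
case: `δ < q < δ ^ 2` and a power of `δ` is a fraction whose numerator is coprime to `q`. -/
theorem result (K : Type) [Field K] [NumberField K] (F : Fin 2 → MvPolynomial (Fin 2) K)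
    (P : Fin 2 → K)
    (hP : ∀ G : MvPolynomial (Fin 2) K,
      (∀ n : ℕ, MvPolynomial.eval ((fun a i => MvPolynomial.eval a (F i))^[n] P) G = 0) → G = 0)
    (q : ℕ)
    (hq : q = Module.finrank (IntermediateField.adjoin K (Set.range fun i =>
      algebraMap (MvPolynomial (Fin 2) K) (FractionRing (MvPolynomial (Fin 2) K)) (F i)))
        (FractionRing (MvPolynomial (Fin 2) K))) :
    ∃ δ : ℝ,
      Tendsto (fun n : ℕ =>
        ((max ((fun G i => MvPolynomial.bind₁ G (F i))^[n] MvPolynomial.X 0).totalDegree
          ((fun G i => MvPolynomial.bind₁ G (F i))^[n] MvPolynomial.X 1).totalDegree : ℕ) : ℝ)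
            ^ (1 / (n : ℝ))) atTop (𝓝 δ) ∧
      (1 < δ →
        (δ < q → q < δ ^ 2 → ∀ m a b : ℕ, 1 ≤ m → 1 ≤ a → δ ^ m * a = b → ¬ b.Coprime q) →
        Tendsto (fun n : ℕ =>
          Height.logHeight ![(fun a i => MvPolynomial.eval a (F i))^[n] P 0,
            (fun a i => MvPolynomial.eval a (F i))^[n] P 1, 1] ^ (1 / (n : ℝ))) atTop (𝓝 δ)) :=
  Pool.Agent.KSP.final3 K F P hP q hq

end Pool.Agent.Results.MP_c8dfda_nt.PolynomialPlane
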