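import Mathlib
import Pool.Agent.MP_c8dfda_nt.dm.Skew

open Filter Topology

namespace Pool.Agent.Results.MP_c8dfda_nt.RationalSkew

/-- The Kawaguchi-Silverman conjecture for all rational self-maps `(x, y) ↦ (x + β, a / b)` of the
plane over a number field. `P` is a well defined orbit which is Zariski dense. The dynamical degree
`δ` exists and, if `δ > 1`, it equals the arithmetic degree of the orbit. -/
theorem result (K : Type) [Field K] [NumberField K] (β : K) (a b : MvPolynomial (Fin 2) K)
    (P : ℕ → Fin 2 → K) (hb : ∀ n, MvPolynomial.eval (P n) b ≠ 0)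
    (hP : ∀ n, P (n + 1) =
      ![P n 0 + β, MvPolynomial.eval (P n) a / MvPolynomial.eval (P n) b])
    (hD : ∀ G : MvPolynomial (Fin 2) K, (∀ n, MvPolynomial.eval (P n) G = 0) → G = 0) :
    ∃ δ : ℝ,
      Tendsto (fun n : ℕ => (Pool.Agent.KSD.ratDeg
        ((fun g : Fin 2 → FractionRing (MvPolynomial (Fin 2) K) =>
          ![g 0 + algebraMap K (FractionRing (MvPolynomial (Fin 2) K)) β,
            MvPolynomial.aeval g a / MvPolynomial.aeval g b])^[n]
          fun i => algebraMap (MvPolynomial (Fin 2) K) (FractionRing (MvPolynomial (Fin 2) K))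
            (MvPolynomial.X i)) : ℝ) ^ (1 / (n : ℝ))) atTop (𝓝 δ) ∧
      (1 < δ → Tendsto (fun n : ℕ => Height.logHeight ![P n 0, P n 1, 1] ^ (1 / (n : ℝ)))
        atTop (𝓝 δ)) :=
  Pool.Agent.KSD.skew β a b P hb hP hD

end Pool.Agent.Results.MP_c8dfda_nt.RationalSkew
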