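import Mathlib
import Pool.Agent.MP_c8dfda_nt.sl.Main

open Filter Topology MvPolynomial

namespace Pool.Agent.Results.MP_c8dfda_nt.ShiftLikeSkew

/-- The Kawaguchi-Silverman conjecture for the polynomial maps
`f (x, y 0, ..., y N) = (a x + b, y 1, ..., y N, p (x, y N) + ∑ i < N, δ i * y i)` over a number
field, where `p` is any polynomial in two variables of degree `d ≥ 2` in the second one. The
variable `none` is `x`, the variable `some i` is `y i`, and `aevalAeval x y p` is `p (x, y)`. -/
theorem result (K : Type) [Field K] [NumberField K] (N : ℕ) (a b : K) (δ : Fin N → K)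
    (p : Polynomial (Polynomial K)) (d : ℕ) (hd : 2 ≤ d) (hp : p.natDegree = d)
    (f : Option (Fin (N + 1)) → MvPolynomial (Option (Fin (N + 1))) K)
    (h0 : f none = C a * X none + C b)
    (h1 : ∀ i : Fin N, f (some i.castSucc) = X (some i.succ))
    (h2 : f (some (Fin.last N)) = Polynomial.aevalAeval (X none) (X (some (Fin.last N))) p +
      ∑ i : Fin N, C (δ i) * X (some i.castSucc))
    (P : Option (Fin (N + 1)) → K)
    (hP : ∀ G : MvPolynomial (Option (Fin (N + 1))) K,
      (∀ n : ℕ, eval ((fun z i => eval z (f i))^[n] P) G = 0) → G = 0) :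
    Tendsto (fun n : ℕ => ((Finset.univ.sup fun i =>
        ((fun G i => bind₁ G (f i))^[n] X i).totalDegree : ℕ) : ℝ) ^ (1 / (n : ℝ)))
      atTop (𝓝 d) ∧
    Tendsto (fun n : ℕ => Height.logHeight (fun j : Option (Option (Fin (N + 1))) =>
        j.elim 1 ((fun z i => eval z (f i))^[n] P)) ^ (1 / (n : ℝ))) atTop (𝓝 d) :=
  Pool.Agent.MP_c8dfda_nt.SL.shiftLike hd hp h0 h1 h2 P hP

end Pool.Agent.Results.MP_c8dfda_nt.ShiftLikeSkew
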