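import Mathlib
import Pool.Agent.MP_c8dfda_nt.tg.Skew

open Filter Topology MvPolynomial

namespace Pool.Agent.Results.MP_c8dfda_nt.SkewTranslation

/-- The Kawaguchi-Silverman conjecture for polynomial skew products `f (x, y) = (x + β, F (x, y))`
over a translation, in every dimension. The variable `none` is `x`, the variables `some i` are the
fibre variables `y`, and `optionEquivRight` reads a polynomial as a polynomial in `y` over `K[x]`.
Regularity: at each point at infinity of the geometric generic fibre where the parts of degree `d`
of `F` all vanish, the top part of some `G` whose degree in `y` drops under `f` does not vanish. -/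
theorem result (K : Type) [Field K] [NumberField K] (ι : Type) [Fintype ι] [Nonempty ι]
    (f : Option ι → MvPolynomial (Option ι) K) (β : K) (hβ : f none = X none + C β)
    (d : ℕ) (hd : 2 ≤ d) (hf : ∀ i, (optionEquivRight K ι (f (some i))).totalDegree ≤ d)
    (hreg : ∀ y : ι → AlgebraicClosure (RatFunc K), y ≠ 0 →
      (∀ i, aeval y (homogeneousComponent d (optionEquivRight K ι (f (some i)))) = 0) →
      ∃ G : MvPolynomial (Option ι) K,
        (optionEquivRight K ι (bind₁ f G)).totalDegree < (optionEquivRight K ι G).totalDegree ∧
        aeval y (homogeneousComponent (optionEquivRight K ι G).totalDegree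
          (optionEquivRight K ι G)) ≠ 0)
    (P : Option ι → K)
    (hP : ∀ G : MvPolynomial (Option ι) K,
      (∀ n : ℕ, eval ((fun a i => eval a (f i))^[n] P) G = 0) → G = 0) :
    Tendsto (fun n : ℕ => ((Finset.univ.sup fun i =>
        ((fun G i => bind₁ G (f i))^[n] X i).totalDegree : ℕ) : ℝ) ^ (1 / (n : ℝ)))
      atTop (𝓝 d) ∧
    Tendsto (fun n : ℕ => Height.logHeight (fun j : Option (Option ι) =>
        j.elim 1 ((fun a i => eval a (f i))^[n] P)) ^ (1 / (n : ℝ))) atTop (𝓝 d) :=
  Pool.Agent.MP_c8dfda_nt.TG.skew hβ hd hf hreg P hP

end Pool.Agent.Results.MP_c8dfda_nt.SkewTranslation
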